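import Mathlib
import Pool.Agent.H83.Sail.Main

/-!
# MP_218aa1_nt: a cone of bounded type with one algebraic face is algebraically periodic

`n >= 3`, `L` is an invertible real matrix, its rows are the linear forms `L_1, ..., L_n`, and
the product of the forms is bounded away from zero on the nonzero integer points. Let `E` be the
linear span of a proper nonzero face of the cone (the common zeros of the forms outside `I`) and
let `B` be a rational matrix mapping `E` into itself. In each of the following cases the sail is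
algebraically periodic, the hyperplanes `L_i = 0` are invariant hyperplanes of an irreducible
RS-matrix in `SL(n, Z)`, and all of them are invariant hyperplanes of `B` itself:

* `n` is prime and `B` is not a scalar matrix;
* the dimension of `E` is prime to `n` (for instance `E` is spanned by an edge or by a facet) and
  the minimal polynomial of `B` has degree `n`;
* the characteristic polynomial of `B` is irreducible and every rational matrix that maps `E`
  into itself commutes with `B`.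
-/

namespace Pool.Agent.Results.MP_218aa1_nt.AlgebraicFace

variable {n : ℕ}

/-- The cone of the points at which all the forms (rows of `L`) are nonnegative. -/
def cone (L : Matrix (Fin n) (Fin n) ℝ) : Set (Fin n → ℝ) :=
  {x | ∀ i, 0 ≤ L.mulVec x i}

/-- The sail of a set `C`: the boundary of the convex hull of its nonzero integer points. -/
def sail (C : Set (Fin n → ℝ)) : Set (Fin n → ℝ) :=
  frontier (convexHull ℝ {x | x ∈ C ∧ x ≠ 0 ∧ ∃ z : Fin n → ℤ, x = fun i => (z i : ℝ)})

/-- Irreducible RS-matrices: determinant one, characteristic polynomial irreducible over the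
rationals, all complex eigenvalues real. -/
structure IsIrreducibleRS (A : Matrix (Fin n) (Fin n) ℤ) : Prop where
  det_eq_one : A.det = 1
  irreducible : Irreducible (A.charpoly.map (Int.castRingHom ℚ))
  real : ∀ z : ℂ, (A.charpoly.map (Int.castRingHom ℂ)).IsRoot z → z.im = 0

/-- `S` is a sail of `A`: the sail of the cone spanned by a real eigenbasis of `A`. -/
def IsSailOf (A : Matrix (Fin n) (Fin n) ℤ) (S : Set (Fin n → ℝ)) : Prop :=
  ∃ e : Fin n → Fin n → ℝ, LinearIndependent ℝ e ∧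
    (∀ i, ∃ μ : ℝ, (A.map (Int.cast : ℤ → ℝ)).mulVec (e i) = μ • e i) ∧
    S = sail {x | ∃ t : Fin n → ℝ, (∀ i, 0 ≤ t i) ∧ x = ∑ i, t i • e i}

/-- The product of the forms is bounded away from zero on the nonzero integer points. -/
def HasPositiveNormMinimum (L : Matrix (Fin n) (Fin n) ℝ) : Prop :=
  ∃ c : ℝ, 0 < c ∧ ∀ z : Fin n → ℤ, z ≠ 0 → c ≤ |∏ i, L.mulVec (fun j => (z j : ℝ)) i|

/-- The common zeros of the forms outside `I`: the linear span of the face of the cone on which
these forms vanish, of dimension the number of elements of `I`. -/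
def faceSpan (L : Matrix (Fin n) (Fin n) ℝ) (I : Finset (Fin n)) : Set (Fin n → ℝ) :=
  {x | ∀ i, i ∉ I → L.mulVec x i = 0}

/-- The rational matrix `B` maps `E` into itself. -/
def Preserves (B : Matrix (Fin n) (Fin n) ℚ) (E : Set (Fin n → ℝ)) : Prop :=
  ∀ x ∈ E, (B.map (Rat.cast : ℚ → ℝ)).mulVec x ∈ E

theorem cone_eq (L : Matrix (Fin n) (Fin n) ℝ) (hL : L.det ≠ 0) :
    cone L = {x | ∃ t : Fin n → ℝ, (∀ i, 0 ≤ t i) ∧
      x = ∑ i, t i • (L⁻¹.mulVec (Pi.single i 1))} := by
  have hunit : IsUnit L.det := isUnit_iff_ne_zero.mpr hL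
  have h1 : ∀ t : Fin n → ℝ, ∑ i, t i • (L⁻¹.mulVec (Pi.single i 1)) = L⁻¹.mulVec t := by
    intro t
    simp_rw [← Matrix.mulVec_smul]
    rw [← Matrix.mulVec_sum]
    congr 1
    funext j
    rw [Finset.sum_apply]
    simp [Pi.single_apply]
  ext x
  simp only [cone, Set.mem_ofPred_eq]
  constructor
  · intro hx
    refine ⟨L.mulVec x, hx, ?_⟩
    rw [h1, Matrix.mulVec_mulVec, Matrix.nonsing_inv_mul L hunit, Matrix.one_mulVec]
  · rintro ⟨t, ht, rfl⟩ i
    rw [h1, Matrix.mulVec_mulVec, Matrix.mul_nonsing_inv L hunit, Matrix.one_mulVec]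
    exact ht i

theorem roots_real (L : Matrix (Fin n) (Fin n) ℝ) (hL : L.det ≠ 0)
    (A : Matrix (Fin n) (Fin n) ℤ) (μ : Fin n → ℝ)
    (hLA : L * A.map (Int.cast : ℤ → ℝ) = Matrix.diagonal μ * L) (z : ℂ)
    (hz : (A.charpoly.map (Int.castRingHom ℂ)).IsRoot z) : z.im = 0 := by
  have h0 : (A.charpoly.map (Int.castRingHom ℂ)) =
      ((A.map (Int.cast : ℤ → ℝ)).charpoly.map (algebraMap ℝ ℂ)) := by
    have h1 : (A.map (Int.cast : ℤ → ℝ)).charpoly = A.charpoly.map (Int.castRingHom ℝ) :=
      Matrix.charpoly_map A (Int.castRingHom ℝ)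
    rw [h1, Polynomial.map_map]
    congr 1
  have h2 : (A.map (Int.cast : ℤ → ℝ)).charpoly = (Matrix.diagonal μ).charpoly := by
    have hunit : IsUnit L.det := isUnit_iff_ne_zero.mpr hL
    obtain ⟨U, hU⟩ := (Matrix.isUnit_iff_isUnit_det L).mpr hunit
    have h3 := Matrix.charpoly_units_conj U (A.map (Int.cast : ℤ → ℝ))
    rw [← h3]
    congr 1
    rw [hU, hLA, Matrix.mul_assoc, Matrix.mul_nonsing_inv L hunit, Matrix.mul_one]
  rw [h0, h2, Matrix.charpoly_diagonal] at hz
  rw [Polynomial.IsRoot, Polynomial.eval_map, Polynomial.eval₂_finsetProd,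
    Finset.prod_eq_zero_iff] at hz
  obtain ⟨i, -, hi⟩ := hz
  rw [Polynomial.eval₂_sub, Polynomial.eval₂_X, Polynomial.eval₂_C, sub_eq_zero] at hi
  rw [hi]
  exact Complex.ofReal_im _

theorem result (n : ℕ) (hn : 3 ≤ n) (L : Matrix (Fin n) (Fin n) ℝ) (hL : L.det ≠ 0)
    (hmin : HasPositiveNormMinimum L) (I : Finset (Fin n)) (hI0 : I ≠ ∅)
    (hI1 : I ≠ Finset.univ) (B : Matrix (Fin n) (Fin n) ℚ) (hB : Preserves B (faceSpan L I))
    (hcase : (n.Prime ∧ ∀ q : ℚ, B ≠ q • (1 : Matrix (Fin n) (Fin n) ℚ)) ∨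
      (Nat.Coprime I.card n ∧ (minpoly ℚ B).natDegree = n) ∨
      (Irreducible B.charpoly ∧ ∀ C : Matrix (Fin n) (Fin n) ℚ,
        Preserves C (faceSpan L I) → C * B = B * C)) :
    ∃ A : Matrix (Fin n) (Fin n) ℤ, IsIrreducibleRS A ∧
      (∀ i, ∃ μ : ℝ, 0 < μ ∧ ∀ x, L.mulVec ((A.map (Int.cast : ℤ → ℝ)).mulVec x) i =
        μ * L.mulVec x i) ∧
      (∀ i, ∃ ν : ℝ, ∀ x, L.mulVec ((B.map (Rat.cast : ℚ → ℝ)).mulVec x) i =
        ν * L.mulVec x i) ∧
      IsSailOf A (sail (cone L)) := by
  obtain ⟨c, hc, hmin⟩ := hmin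
  have hne : Nonempty (Fin n) := ⟨⟨0, by omega⟩⟩
  have hcardn : Fintype.card (Fin n) = n := Fintype.card_fin n
  have hBp : B ∈ Pool.Agent.H83.Sail.pres L I := hB
  have hI0' : I.Nonempty := Finset.nonempty_iff_ne_empty.mpr hI0
  -- reduce to an irreducible characteristic polynomial
  obtain ⟨hirr, hcase'⟩ : Irreducible B.charpoly ∧ (I.card.Coprime (Fintype.card (Fin n)) ∨
      ∀ C ∈ Pool.Agent.H83.Sail.pres L I, C * B = B * C) := by
    rcases hcase with ⟨hp, hq⟩ | ⟨hco, hdeg⟩ | ⟨hirr, hcomm⟩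
    · have hlt : I.card < n := by
        have h1 := lt_of_le_of_ne (Finset.card_le_univ I)
          (fun h => hI1 (Finset.card_eq_iff_eq_univ I |>.mp h))
        rwa [hcardn] at h1
      have hco : I.card.Coprime (Fintype.card (Fin n)) := by
        rw [hcardn]
        exact (Nat.coprime_of_lt_prime (Finset.card_pos.mpr hI0').ne' hlt hp).symm
      exact ⟨Pool.Agent.H83.Sail.charpoly_irred_of L hL c hc hmin I hco B hBp
        (Or.inr ⟨by rw [hcardn]; exact hp, hq⟩), Or.inl hco⟩
    · have hco' : I.card.Coprime (Fintype.card (Fin n)) := by rw [hcardn]; exact hco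
      exact ⟨Pool.Agent.H83.Sail.charpoly_irred_of L hL c hc hmin I hco' B hBp
        (Or.inl (by rw [hcardn]; exact hdeg)), Or.inl hco'⟩
    · exact ⟨hirr, Or.inr hcomm⟩
  obtain ⟨A, μ, ν, hdet, hAirr, hμ, hLA, hLB⟩ := Pool.Agent.H83.Sail.main_gen (by rw [hcardn]; exact hn)
    L hL c hc hmin B hirr I hI0' hI1 hBp hcase'
  have hunit : IsUnit L.det := isUnit_iff_ne_zero.mpr hL
  refine ⟨A, ⟨hdet, hAirr, fun z hz => roots_real L hL A μ hLA z hz⟩, ?_, ?_, ?_⟩
  · intro i
    refine ⟨μ i, hμ i, fun x => ?_⟩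
    rw [Matrix.mulVec_mulVec, hLA, ← Matrix.mulVec_mulVec, Matrix.mulVec_diagonal]
  · intro i
    refine ⟨ν i, fun x => ?_⟩
    rw [Matrix.mulVec_mulVec, hLB, ← Matrix.mulVec_mulVec, Matrix.mulVec_diagonal]
  · refine ⟨fun i => L⁻¹.mulVec (Pi.single i 1), ?_, ?_, ?_⟩
    · rw [Fintype.linearIndependent_iff]
      intro g hg i
      have h1 := congrArg (fun w => L.mulVec w i) hg
      beta_reduce at h1
      rw [Matrix.mulVec_sum, Finset.sum_apply, Matrix.mulVec_zero, Pi.zero_apply] at h1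
      simp_rw [Matrix.mulVec_smul, Matrix.mulVec_mulVec, Matrix.mul_nonsing_inv L hunit,
        Matrix.one_mulVec, Pi.smul_apply, smul_eq_mul, Pi.single_apply] at h1
      simpa using h1
    · intro i
      refine ⟨μ i, ?_⟩
      have h1 : A.map (Int.cast : ℤ → ℝ) * L⁻¹ = L⁻¹ * Matrix.diagonal μ := by
        have h2 := congrArg (fun M => L⁻¹ * M * L⁻¹) hLA
        beta_reduce at h2
        rw [← Matrix.mul_assoc, Matrix.nonsing_inv_mul L hunit, Matrix.one_mul,
          Matrix.mul_assoc L⁻¹, Matrix.mul_assoc (Matrix.diagonal μ),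
          Matrix.mul_nonsing_inv L hunit, Matrix.mul_one] at h2
        exact h2
      rw [Matrix.mulVec_mulVec, h1, ← Matrix.mulVec_mulVec, ← Matrix.mulVec_smul]
      congr 1
      funext j
      rw [Matrix.mulVec_diagonal, Pi.smul_apply, smul_eq_mul, Pi.single_apply]
      split_ifs with h
      · rw [h]
      · rw [mul_zero, mul_zero]
    · rw [cone_eq L hL]

end Pool.Agent.Results.MP_218aa1_nt.AlgebraicFace
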