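import Mathlib
import Pool.Agent.H83.Sail.Synd

/-!
# MP_218aa1_nt: one large window of the sail with norms in a countable closed set

`n >= 3`, `L` is an invertible real matrix, its rows are the linear forms `L_1, ..., L_n`. For
all `c > 0`, `d`, `K` and every countable closed set `V` of real numbers there is `T` such that
the following holds for all `L` with `|det L| <= d` and `|L_1 ... L_n| >= c` on the nonzero
integer points. If for one vector `s` with positive coordinates of product one all the vertices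
`v` of the sail in the window `L_i(v) <= T s_i` have norm `L_1(v) ... L_n(v)` in `V`, or every
window `0 < L_i <= K t_i` with `t_i <= T s_i`, `t_1 ... t_n = 1`, contains an integer point with
norm in `V`, then the sail is algebraically periodic. The same conclusion holds if the vertices
in the windows along a sequence of directions have finitely many norms.
-/

namespace Pool.Agent.Results.MP_218aa1_nt.CountableNorms

variable {n : ℕ}

/-- The cone of the points at which all the forms (rows of `L`) are nonnegative. -/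
def cone (L : Matrix (Fin n) (Fin n) ℝ) : Set (Fin n → ℝ) :=
  {x | ∀ i, 0 ≤ L.mulVec x i}

/-- The nonzero integer points of a set. -/
def integerPoints (C : Set (Fin n → ℝ)) : Set (Fin n → ℝ) :=
  {x | x ∈ C ∧ x ≠ 0 ∧ ∃ z : Fin n → ℤ, x = fun i => (z i : ℝ)}

/-- The sail of a set `C`: the boundary of the convex hull of its nonzero integer points. -/
def sail (C : Set (Fin n → ℝ)) : Set (Fin n → ℝ) :=
  frontier (convexHull ℝ (integerPoints C))

/-- `v` is a vertex of the sail of the cone: an extreme point of the convex hull of the nonzero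
integer points of the cone. -/
def IsVertex (L : Matrix (Fin n) (Fin n) ℝ) (v : Fin n → ℤ) : Prop :=
  (fun j => (v j : ℝ)) ∈ (convexHull ℝ (integerPoints (cone L))).extremePoints ℝ

/-- Irreducible RS-matrices: determinant one, characteristic polynomial irreducible over the
rationals, all complex eigenvalues real. -/
structure IsIrreducibleRS (A : Matrix (Fin n) (Fin n) ℤ) : Prop where
  det_eq_one : A.det = 1
  irreducible : Irreducible (A.charpoly.map (Int.castRingHom ℚ))
  real : ∀ z : ℂ, (A.charpoly.map (Int.castRingHom ℂ)).IsRoot z → z.im = 0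

/-- `S` is a sail of `A`: the sail of the cone spanned by a real eigenbasis of `A`. -/
def IsSailOf (A : Matrix (Fin n) (Fin n) ℤ) (S : Set (Fin n → ℝ)) : Prop :=
  ∃ e : Fin n → Fin n → ℝ, LinearIndependent ℝ e ∧
    (∀ i, ∃ μ : ℝ, (A.map (Int.cast : ℤ → ℝ)).mulVec (e i) = μ • e i) ∧
    S = sail {x | ∃ t : Fin n → ℝ, (∀ i, 0 ≤ t i) ∧ x = ∑ i, t i • e i}

/-- The norm of an integer point: the product of the values of the forms. -/
def normForm (L : Matrix (Fin n) (Fin n) ℝ) (v : Fin n → ℤ) : ℝ :=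
  ∏ i, L.mulVec (fun j => (v j : ℝ)) i

/-- All the forms are eigenforms, with positive eigenvalues, of one irreducible RS-matrix, and
the sail of the cone is a sail of this matrix. -/
def AlgebraicallyPeriodic (L : Matrix (Fin n) (Fin n) ℝ) : Prop :=
  ∃ A : Matrix (Fin n) (Fin n) ℤ, IsIrreducibleRS A ∧
    (∀ i, ∃ μ : ℝ, 0 < μ ∧ ∀ x, L.mulVec ((A.map (Int.cast : ℤ → ℝ)).mulVec x) i =
      μ * L.mulVec x i) ∧
    IsSailOf A (sail (cone L))

/-- Positive coordinates of product one. -/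
def IsUnimodular (s : Fin n → ℝ) : Prop := (∀ i, 0 < s i) ∧ ∏ i, s i = 1

/-- All the vertices `v` of the sail with `L_i(v) <= T s_i` for all `i` have norm in `V`. -/
def VerticesIn (L : Matrix (Fin n) (Fin n) ℝ) (V : Set ℝ) (T : ℝ) (s : Fin n → ℝ) : Prop :=
  ∀ v : Fin n → ℤ, IsVertex L v → (∀ i, L.mulVec (fun j => (v j : ℝ)) i ≤ T * s i) →
    normForm L v ∈ V

/-- For all `t` with positive coordinates of product one and `t_i <= T s_i` for all `i` there is
an integer point `v` with norm in `V` and `0 < L_i(v) <= K t_i` for all `i`. -/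
def DenselyIn (L : Matrix (Fin n) (Fin n) ℝ) (V : Set ℝ) (K T : ℝ) (s : Fin n → ℝ) : Prop :=
  ∀ t : Fin n → ℝ, IsUnimodular t → (∀ i, t i ≤ T * s i) → ∃ v : Fin n → ℤ,
    (∀ i, 0 < L.mulVec (fun j => (v j : ℝ)) i ∧
      L.mulVec (fun j => (v j : ℝ)) i ≤ K * t i) ∧ normForm L v ∈ V

/-- For every `M` the vertices `v` of the sail with `L_i(v) <= M s_i` for all `i`, for some `s` of
the sequence, have only finitely many norms. -/
def FinitelyManyAlong (L : Matrix (Fin n) (Fin n) ℝ) (s : ℕ → Fin n → ℝ) : Prop :=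
  ∀ M : ℝ, {x : ℝ | ∃ v : Fin n → ℤ, IsVertex L v ∧
    (∃ k : ℕ, ∀ i, L.mulVec (fun j => (v j : ℝ)) i ≤ M * s k i) ∧ x = normForm L v}.Finite

theorem cone_eq (L : Matrix (Fin n) (Fin n) ℝ) (hL : L.det ≠ 0) :
    cone L = {x | ∃ t : Fin n → ℝ, (∀ i, 0 ≤ t i) ∧
      x = ∑ i, t i • (L⁻¹.mulVec (Pi.single i 1))} := by
  have hunit : IsUnit L.det := isUnit_iff_ne_zero.mpr hL
  have h1 : ∀ t : Fin n → ℝ, ∑ i, t i • (L⁻¹.mulVec (Pi.single i 1)) = L⁻¹.mulVec t := by
    intro t
    simp_rw [← Matrix.mulVec_smul]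
    rw [← Matrix.mulVec_sum]
    congr 1
    funext j
    rw [Finset.sum_apply]
    simp [Pi.single_apply]
  ext x
  simp only [cone, Set.mem_ofPred_eq]
  constructor
  · intro hx
    refine ⟨L.mulVec x, hx, ?_⟩
    rw [h1, Matrix.mulVec_mulVec, Matrix.nonsing_inv_mul L hunit, Matrix.one_mulVec]
  · rintro ⟨t, ht, rfl⟩ i
    rw [h1, Matrix.mulVec_mulVec, Matrix.mul_nonsing_inv L hunit, Matrix.one_mulVec]
    exact ht i

theorem roots_real (L : Matrix (Fin n) (Fin n) ℝ) (hL : L.det ≠ 0)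
    (A : Matrix (Fin n) (Fin n) ℤ) (μ : Fin n → ℝ)
    (hLA : L * A.map (Int.cast : ℤ → ℝ) = Matrix.diagonal μ * L) (z : ℂ)
    (hz : (A.charpoly.map (Int.castRingHom ℂ)).IsRoot z) : z.im = 0 := by
  have h0 : (A.charpoly.map (Int.castRingHom ℂ)) =
      ((A.map (Int.cast : ℤ → ℝ)).charpoly.map (algebraMap ℝ ℂ)) := by
    have h1 : (A.map (Int.cast : ℤ → ℝ)).charpoly = A.charpoly.map (Int.castRingHom ℝ) :=
      Matrix.charpoly_map A (Int.castRingHom ℝ)
    rw [h1, Polynomial.map_map]
    congr 1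
  have h2 : (A.map (Int.cast : ℤ → ℝ)).charpoly = (Matrix.diagonal μ).charpoly := by
    have hunit : IsUnit L.det := isUnit_iff_ne_zero.mpr hL
    obtain ⟨U, hU⟩ := (Matrix.isUnit_iff_isUnit_det L).mpr hunit
    have h3 := Matrix.charpoly_units_conj U (A.map (Int.cast : ℤ → ℝ))
    rw [← h3]
    congr 1
    rw [hU, hLA, Matrix.mul_assoc, Matrix.mul_nonsing_inv L hunit, Matrix.mul_one]
  rw [h0, h2, Matrix.charpoly_diagonal] at hz
  rw [Polynomial.IsRoot, Polynomial.eval_map, Polynomial.eval₂_finsetProd,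
    Finset.prod_eq_zero_iff] at hz
  obtain ⟨i, -, hi⟩ := hz
  rw [Polynomial.eval₂_sub, Polynomial.eval₂_X, Polynomial.eval₂_C, sub_eq_zero] at hi
  rw [hi]
  exact Complex.ofReal_im _

theorem periodic_of_alg (L : Matrix (Fin n) (Fin n) ℝ) (hL : L.det ≠ 0)
    (h : Pool.Agent.H83.Sail.Alg L) : AlgebraicallyPeriodic L := by
  obtain ⟨A, μ, hdet, hAirr, hμ, hLA⟩ := h
  have hunit : IsUnit L.det := isUnit_iff_ne_zero.mpr hL
  refine ⟨A, ⟨hdet, hAirr, fun z hz => roots_real L hL A μ hLA z hz⟩, ?_, ?_⟩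
  · intro i
    refine ⟨μ i, hμ i, fun x => ?_⟩
    rw [Matrix.mulVec_mulVec, hLA, ← Matrix.mulVec_mulVec, Matrix.mulVec_diagonal]
  · refine ⟨fun i => L⁻¹.mulVec (Pi.single i 1), ?_, ?_, ?_⟩
    · rw [Fintype.linearIndependent_iff]
      intro g hg i
      have h1 := congrArg (fun w => L.mulVec w i) hg
      beta_reduce at h1
      rw [Matrix.mulVec_sum, Finset.sum_apply, Matrix.mulVec_zero, Pi.zero_apply] at h1
      simp_rw [Matrix.mulVec_smul, Matrix.mulVec_mulVec, Matrix.mul_nonsing_inv L hunit,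
        Matrix.one_mulVec, Pi.smul_apply, smul_eq_mul, Pi.single_apply] at h1
      simpa using h1
    · intro i
      refine ⟨μ i, ?_⟩
      have h1 : A.map (Int.cast : ℤ → ℝ) * L⁻¹ = L⁻¹ * Matrix.diagonal μ := by
        have h2 := congrArg (fun M => L⁻¹ * M * L⁻¹) hLA
        beta_reduce at h2
        rw [← Matrix.mul_assoc, Matrix.nonsing_inv_mul L hunit, Matrix.one_mul,
          Matrix.mul_assoc L⁻¹, Matrix.mul_assoc (Matrix.diagonal μ),
          Matrix.mul_nonsing_inv L hunit, Matrix.mul_one] at h2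
        exact h2
      rw [Matrix.mulVec_mulVec, h1, ← Matrix.mulVec_mulVec, ← Matrix.mulVec_smul]
      congr 1
      funext j
      rw [Matrix.mulVec_diagonal, Pi.smul_apply, smul_eq_mul, Pi.single_apply]
      split_ifs with h
      · rw [h]
      · rw [mul_zero, mul_zero]
    · rw [cone_eq L hL]

/-- The covolume is at least the norm minimum. -/
theorem det_lower (hn : 0 < n) (L : Matrix (Fin n) (Fin n) ℝ) (hL : L.det ≠ 0) (c : ℝ)
    (hmin : ∀ z : Fin n → ℤ, z ≠ 0 → c ≤ |normForm L z|) : c ≤ |L.det| := by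
  by_contra hcon
  push Not at hcon
  set i0 : Fin n := ⟨0, hn⟩
  set m : ℝ := (|L.det| + c) / 2 with hm
  have hm1 : |L.det| < m := by rw [hm]; linarith
  have hm2 : m < c := by rw [hm]; linarith
  have hm0 : 0 < m := (abs_nonneg _).trans_lt hm1
  set ε : Fin n → ℝ := Function.update (fun _ => (1 : ℝ)) i0 m with hε
  have hprod : ∏ i, ε i = m := by
    rw [hε, Finset.prod_update_of_mem (Finset.mem_univ i0), Finset.prod_const_one, mul_one]
  have hε0 : ∀ i, 0 < ε i := by
    intro i
    rw [hε]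
    by_cases h : i = i0
    · rw [h, Function.update_self]
      exact hm0
    · rw [Function.update_of_ne h]
      exact one_pos
  obtain ⟨z, hz0, hz⟩ := Pool.Agent.H83.Sail.minkowski_box L hL ε hε0 (by rw [hprod]; exact hm1)
  have h1 := hmin z hz0
  unfold normForm at h1
  rw [Finset.abs_prod] at h1
  have h2 : ∏ i, |L.mulVec (fun j => (z j : ℝ)) i| ≤ ∏ i, ε i :=
    Finset.prod_le_prod (fun i _ => abs_nonneg _) (fun i _ => (hz i).le)
  rw [hprod] at h2
  linarith

theorem result (n : ℕ) (hn : 3 ≤ n) (c d K : ℝ) (hc : 0 < c) (V : Set ℝ) (hV : IsClosed V)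
    (hVc : V.Countable) :
    ∃ T : ℝ, ∀ L : Matrix (Fin n) (Fin n) ℝ, L.det ≠ 0 → |L.det| ≤ d →
      (∀ z : Fin n → ℤ, z ≠ 0 → c ≤ |normForm L z|) →
      ((∃ s, IsUnimodular s ∧ (VerticesIn L V T s ∨ DenselyIn L V K T s)) ∨
        ∃ s : ℕ → Fin n → ℝ, (∀ k, IsUnimodular (s k)) ∧
          (∀ i j, i ≠ j → Filter.Tendsto (fun k => |Real.log (s k i / s k j)|)
            Filter.atTop Filter.atTop) ∧ FinitelyManyAlong L s) →
      AlgebraicallyPeriodic L := by
  have hcardn : Fintype.card (Fin n) = n := Fintype.card_fin n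
  have hn' : 3 ≤ Fintype.card (Fin n) := by rw [hcardn]; exact hn
  have hne : Nonempty (Fin n) := ⟨⟨0, by omega⟩⟩
  obtain ⟨T1, hT1⟩ := Pool.Agent.H83.Sail.patch (ι := Fin n) hn' c d hc V hV hVc
  obtain ⟨T2, hT2⟩ := Pool.Agent.H83.Sail.patch_K (ι := Fin n) hn' c d K hc V hV hVc
  refine ⟨max T1 T2, fun L hL hd hmin h => periodic_of_alg L hL ?_⟩
  have hgood : L ∈ Pool.Agent.H83.Sail.Good c d :=
    ⟨det_lower (by omega) L hL c hmin, hd, hmin⟩
  have hpts : integerPoints (cone L) = Pool.Agent.H83.Sail.pts L := rfl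
  rcases h with ⟨s, ⟨hs, hs1⟩, h | h⟩ | ⟨s, hs, hsd, h⟩
  · refine hT1 L hgood s hs hs1 (fun v hv hvT => h v hv.extreme (fun i => ?_))
    exact (hvT i).trans (mul_le_mul_of_nonneg_right (le_max_left _ _) (hs i).le)
  · refine hT2 L hgood s hs hs1 (fun t ht ht1 htT => h t ⟨ht, ht1⟩ (fun i => ?_))
    exact (htT i).trans (mul_le_mul_of_nonneg_right (le_max_right _ _) (hs i).le)
  · exact Pool.Agent.H83.Sail.fin_main hn' L hL c hc hmin s (fun k => (hs k).1)
      (fun k => (hs k).2) hsd h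

end Pool.Agent.Results.MP_218aa1_nt.CountableNorms
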