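import Mathlib
import Pool.Agent.H83.Sail.Fincl
import Pool.Agent.H83.Sail.Poly

/-!
# MP_218aa1_nt: the number of classes of patches of a sail

`n >= 3`, `L` is an invertible real matrix, its rows are the linear forms `L_1, ..., L_n`. The
integer points of the sail form a graph: `x` and `y` are joined if the segment `[x, y]` lies in
the sail. Patches of radius `R` of this graph are compared by unimodular integer matrices. If the
integer points of the sail in one large window fall into at most `m` classes of patches of radius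
`R` and `m <= (eps R) ^ (n - n / p)`, `p` the least prime factor of `n`, or
`m (2 n ^ 2 + 1) < R`, then the sail is algebraically periodic. The number of classes is
always finite, and for an algebraically periodic sail it is bounded independently of `R`.
-/

namespace Pool.Agent.Results.MP_218aa1_nt.PatchComplexity

variable {n : ℕ}

/-- The cone of the points at which all the forms (rows of `L`) are nonnegative. -/
def cone (L : Matrix (Fin n) (Fin n) ℝ) : Set (Fin n → ℝ) :=
  {x | ∀ i, 0 ≤ L.mulVec x i}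

/-- The nonzero integer points of a set. -/
def integerPoints (C : Set (Fin n → ℝ)) : Set (Fin n → ℝ) :=
  {x | x ∈ C ∧ x ≠ 0 ∧ ∃ z : Fin n → ℤ, x = fun i => (z i : ℝ)}

/-- The sail of a set `C`: the boundary of the convex hull of its nonzero integer points. -/
def sail (C : Set (Fin n → ℝ)) : Set (Fin n → ℝ) :=
  frontier (convexHull ℝ (integerPoints C))

/-- The norm of an integer point: the product of the values of the forms. -/
def normForm (L : Matrix (Fin n) (Fin n) ℝ) (v : Fin n → ℤ) : ℝ :=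
  ∏ i, L.mulVec (fun j => (v j : ℝ)) i

/-- Irreducible RS-matrices: determinant one, characteristic polynomial irreducible over the
rationals, all complex eigenvalues real. -/
structure IsIrreducibleRS (A : Matrix (Fin n) (Fin n) ℤ) : Prop where
  det_eq_one : A.det = 1
  irreducible : Irreducible (A.charpoly.map (Int.castRingHom ℚ))
  real : ∀ z : ℂ, (A.charpoly.map (Int.castRingHom ℂ)).IsRoot z → z.im = 0

/-- `S` is a sail of `A`: the sail of the cone spanned by a real eigenbasis of `A`. -/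
def IsSailOf (A : Matrix (Fin n) (Fin n) ℤ) (S : Set (Fin n → ℝ)) : Prop :=
  ∃ e : Fin n → Fin n → ℝ, LinearIndependent ℝ e ∧
    (∀ i, ∃ μ : ℝ, (A.map (Int.cast : ℤ → ℝ)).mulVec (e i) = μ • e i) ∧
    S = sail {x | ∃ t : Fin n → ℝ, (∀ i, 0 ≤ t i) ∧ x = ∑ i, t i • e i}

/-- All the forms are eigenforms, with positive eigenvalues, of one irreducible RS-matrix, and
the sail of the cone is a sail of this matrix. -/
def AlgebraicallyPeriodic (L : Matrix (Fin n) (Fin n) ℝ) : Prop :=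
  ∃ A : Matrix (Fin n) (Fin n) ℤ, IsIrreducibleRS A ∧
    (∀ i, ∃ μ : ℝ, 0 < μ ∧ ∀ x, L.mulVec ((A.map (Int.cast : ℤ → ℝ)).mulVec x) i =
      μ * L.mulVec x i) ∧
    IsSailOf A (sail (cone L))

/-- Positive coordinates of product one. -/
def IsUnimodular (s : Fin n → ℝ) : Prop := (∀ i, 0 < s i) ∧ ∏ i, s i = 1

/-- The segment joining the integer points `x` and `y` lies in the sail. For `x = y` this says
that `x` is a point of the sail. -/
def Joined (L : Matrix (Fin n) (Fin n) ℝ) (x y : Fin n → ℤ) : Prop :=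
  segment ℝ (fun j => (x j : ℝ)) (fun j => (y j : ℝ)) ⊆ sail (cone L)

/-- `g` maps the patch of radius `r` around `x` onto the patch of radius `r` around `g x`: for
all `u` that are reached from `x` by a path of less than `r` steps in the graph of joined integer
points and all `w`, the points `u`, `w` are joined if and only if `g u`, `g w` are joined. -/
def MapsPatch (L : Matrix (Fin n) (Fin n) ℝ) :
    ℕ → (Fin n → ℤ) → Matrix (Fin n) (Fin n) ℤ → Prop
  | 0, _, _ => True
  | r + 1, x, g => (∀ w, Joined L x w ↔ Joined L (g.mulVec x) (g.mulVec w)) ∧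
      ∀ u, Joined L x u → MapsPatch L r u g

/-- A unimodular integer matrix maps `x` to `y` and the patch of radius `r` around `x` onto the
patch of radius `r` around `y`. -/
def SamePatch (L : Matrix (Fin n) (Fin n) ℝ) (r : ℕ) (x y : Fin n → ℤ) : Prop :=
  ∃ g : Matrix (Fin n) (Fin n) ℤ, IsUnit g.det ∧ g.mulVec x = y ∧ MapsPatch L r x g

/-- The integer points of the sail that lie in `W` fall into at most `m` classes of patches of
radius `r`. -/
def AtMostClasses (L : Matrix (Fin n) (Fin n) ℝ) (r m : ℕ) (W : Set (Fin n → ℤ)) : Prop :=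
  ∃ F : Finset (Fin n → ℤ), F.card ≤ m ∧
    ∀ x ∈ W, (fun j => (x j : ℝ)) ∈ sail (cone L) → ∃ y ∈ F, SamePatch L r y x

/-- The integer points `x` with `L_i(x) <= T s_i` for all `i`. -/
def window (L : Matrix (Fin n) (Fin n) ℝ) (T : ℝ) (s : Fin n → ℝ) : Set (Fin n → ℤ) :=
  {x | ∀ i, L.mulVec (fun j => (x j : ℝ)) i ≤ T * s i}

theorem cone_eq (L : Matrix (Fin n) (Fin n) ℝ) (hL : L.det ≠ 0) :
    cone L = {x | ∃ t : Fin n → ℝ, (∀ i, 0 ≤ t i) ∧
      x = ∑ i, t i • (L⁻¹.mulVec (Pi.single i 1))} := by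
  have hunit : IsUnit L.det := isUnit_iff_ne_zero.mpr hL
  have h1 : ∀ t : Fin n → ℝ, ∑ i, t i • (L⁻¹.mulVec (Pi.single i 1)) = L⁻¹.mulVec t := by
    intro t
    simp_rw [← Matrix.mulVec_smul]
    rw [← Matrix.mulVec_sum]
    congr 1
    funext j
    rw [Finset.sum_apply]
    simp [Pi.single_apply]
  ext x
  simp only [cone, Set.mem_ofPred_eq]
  constructor
  · intro hx
    refine ⟨L.mulVec x, hx, ?_⟩
    rw [h1, Matrix.mulVec_mulVec, Matrix.nonsing_inv_mul L hunit, Matrix.one_mulVec]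
  · rintro ⟨t, ht, rfl⟩ i
    rw [h1, Matrix.mulVec_mulVec, Matrix.mul_nonsing_inv L hunit, Matrix.one_mulVec]
    exact ht i

theorem roots_real (L : Matrix (Fin n) (Fin n) ℝ) (hL : L.det ≠ 0)
    (A : Matrix (Fin n) (Fin n) ℤ) (μ : Fin n → ℝ)
    (hLA : L * A.map (Int.cast : ℤ → ℝ) = Matrix.diagonal μ * L) (z : ℂ)
    (hz : (A.charpoly.map (Int.castRingHom ℂ)).IsRoot z) : z.im = 0 := by
  have h0 : (A.charpoly.map (Int.castRingHom ℂ)) =
      ((A.map (Int.cast : ℤ → ℝ)).charpoly.map (algebraMap ℝ ℂ)) := by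
    have h1 : (A.map (Int.cast : ℤ → ℝ)).charpoly = A.charpoly.map (Int.castRingHom ℝ) :=
      Matrix.charpoly_map A (Int.castRingHom ℝ)
    rw [h1, Polynomial.map_map]
    congr 1
  have h2 : (A.map (Int.cast : ℤ → ℝ)).charpoly = (Matrix.diagonal μ).charpoly := by
    have hunit : IsUnit L.det := isUnit_iff_ne_zero.mpr hL
    obtain ⟨U, hU⟩ := (Matrix.isUnit_iff_isUnit_det L).mpr hunit
    have h3 := Matrix.charpoly_units_conj U (A.map (Int.cast : ℤ → ℝ))
    rw [← h3]
    congr 1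
    rw [hU, hLA, Matrix.mul_assoc, Matrix.mul_nonsing_inv L hunit, Matrix.mul_one]
  rw [h0, h2, Matrix.charpoly_diagonal] at hz
  rw [Polynomial.IsRoot, Polynomial.eval_map, Polynomial.eval₂_finsetProd,
    Finset.prod_eq_zero_iff] at hz
  obtain ⟨i, -, hi⟩ := hz
  rw [Polynomial.eval₂_sub, Polynomial.eval₂_X, Polynomial.eval₂_C, sub_eq_zero] at hi
  rw [hi]
  exact Complex.ofReal_im _

theorem periodic_of_alg (L : Matrix (Fin n) (Fin n) ℝ) (hL : L.det ≠ 0)
    (h : Pool.Agent.H83.Sail.Alg L) : AlgebraicallyPeriodic L := by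
  obtain ⟨A, μ, hdet, hAirr, hμ, hLA⟩ := h
  have hunit : IsUnit L.det := isUnit_iff_ne_zero.mpr hL
  refine ⟨A, ⟨hdet, hAirr, fun z hz => roots_real L hL A μ hLA z hz⟩, ?_, ?_⟩
  · intro i
    refine ⟨μ i, hμ i, fun x => ?_⟩
    rw [Matrix.mulVec_mulVec, hLA, ← Matrix.mulVec_mulVec, Matrix.mulVec_diagonal]
  · refine ⟨fun i => L⁻¹.mulVec (Pi.single i 1), ?_, ?_, ?_⟩
    · rw [Fintype.linearIndependent_iff]
      intro g hg i
      have h1 := congrArg (fun w => L.mulVec w i) hg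
      beta_reduce at h1
      rw [Matrix.mulVec_sum, Finset.sum_apply, Matrix.mulVec_zero, Pi.zero_apply] at h1
      simp_rw [Matrix.mulVec_smul, Matrix.mulVec_mulVec, Matrix.mul_nonsing_inv L hunit,
        Matrix.one_mulVec, Pi.smul_apply, smul_eq_mul, Pi.single_apply] at h1
      simpa using h1
    · intro i
      refine ⟨μ i, ?_⟩
      have h1 : A.map (Int.cast : ℤ → ℝ) * L⁻¹ = L⁻¹ * Matrix.diagonal μ := by
        have h2 := congrArg (fun M => L⁻¹ * M * L⁻¹) hLA
        beta_reduce at h2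
        rw [← Matrix.mul_assoc, Matrix.nonsing_inv_mul L hunit, Matrix.one_mul,
          Matrix.mul_assoc L⁻¹, Matrix.mul_assoc (Matrix.diagonal μ),
          Matrix.mul_nonsing_inv L hunit, Matrix.mul_one] at h2
        exact h2
      rw [Matrix.mulVec_mulVec, h1, ← Matrix.mulVec_mulVec, ← Matrix.mulVec_smul]
      congr 1
      funext j
      rw [Matrix.mulVec_diagonal, Pi.smul_apply, smul_eq_mul, Pi.single_apply]
      split_ifs with h
      · rw [h]
      · rw [mul_zero, mul_zero]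
    · rw [cone_eq L hL]

/-- The covolume is at least the norm minimum. -/
theorem det_lower (hn : 0 < n) (L : Matrix (Fin n) (Fin n) ℝ) (hL : L.det ≠ 0) (c : ℝ)
    (hmin : ∀ z : Fin n → ℤ, z ≠ 0 → c ≤ |normForm L z|) : c ≤ |L.det| := by
  by_contra hcon
  push Not at hcon
  set i0 : Fin n := ⟨0, hn⟩
  set m : ℝ := (|L.det| + c) / 2 with hm
  have hm1 : |L.det| < m := by rw [hm]; linarith
  have hm2 : m < c := by rw [hm]; linarith
  have hm0 : 0 < m := (abs_nonneg _).trans_lt hm1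
  set ε : Fin n → ℝ := Function.update (fun _ => (1 : ℝ)) i0 m with hε
  have hprod : ∏ i, ε i = m := by
    rw [hε, Finset.prod_update_of_mem (Finset.mem_univ i0), Finset.prod_const_one, mul_one]
  have hε0 : ∀ i, 0 < ε i := by
    intro i
    rw [hε]
    by_cases h : i = i0
    · rw [h, Function.update_self]
      exact hm0
    · rw [Function.update_of_ne h]
      exact one_pos
  obtain ⟨z, hz0, hz⟩ := Pool.Agent.H83.Sail.minkowski_box L hL ε hε0 (by rw [hprod]; exact hm1)
  have h1 := hmin z hz0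
  unfold normForm at h1
  rw [Finset.abs_prod] at h1
  have h2 : ∏ i, |L.mulVec (fun j => (z j : ℝ)) i| ≤ ∏ i, ε i :=
    Finset.prod_le_prod (fun i _ => abs_nonneg _) (fun i _ => (hz i).le)
  rw [hprod] at h2
  linarith

theorem joined_eq (hn : 2 ≤ n) (L : Matrix (Fin n) (Fin n) ℝ) (hL : L.det ≠ 0) (c : ℝ)
    (hc : 0 < c) (hmin : ∀ z : Fin n → ℤ, z ≠ 0 → c ≤ |normForm L z|) :
    Joined L = Pool.Agent.H83.Sail.AdjW L := by
  have hne : Nonempty (Fin n) := ⟨⟨0, by omega⟩⟩
  funext x y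
  exact propext (Pool.Agent.H83.Sail.adjS_iff (by rw [Fintype.card_fin]; exact hn) L hL c hc
    hmin x y)

theorem node_iff (L : Matrix (Fin n) (Fin n) ℝ) (x : Fin n → ℤ) :
    (fun j => (x j : ℝ)) ∈ sail (cone L) ↔ Joined L x x := by
  rw [Joined, segment_same, Set.singleton_subset_iff]

theorem mapsPatch_iff (L : Matrix (Fin n) (Fin n) ℝ) (r : ℕ)
    (g : (Matrix (Fin n) (Fin n) ℤ)ˣ) : ∀ x : Fin n → ℤ,
    MapsPatch L r x g ↔ Pool.Agent.H83.Sail.Local.PIso (Joined L) r x g := by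
  induction r with
  | zero => exact fun x => Iff.rfl
  | succ r ih =>
    intro x
    exact and_congr Iff.rfl (forall_congr' (fun u => imp_congr_right (fun _ => ih u)))

theorem samePatch_iff (L : Matrix (Fin n) (Fin n) ℝ) (r : ℕ) (x y : Fin n → ℤ) :
    SamePatch L r x y ↔
      Pool.Agent.H83.Sail.Local.Rel (Matrix (Fin n) (Fin n) ℤ)ˣ (Joined L) r x y := by
  constructor
  · rintro ⟨g, hg, hgx, hgp⟩
    obtain ⟨h, rfl⟩ := (Matrix.isUnit_iff_isUnit_det g).mpr hg
    exact ⟨h, hgx, (mapsPatch_iff L r h x).mp hgp⟩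
  · rintro ⟨g, hgx, hgp⟩
    exact ⟨g, (Matrix.isUnit_iff_isUnit_det _).mp g.isUnit, hgx,
      (mapsPatch_iff L r g x).mpr hgp⟩

theorem alg_of_periodic (L : Matrix (Fin n) (Fin n) ℝ) (h : AlgebraicallyPeriodic L) :
    Pool.Agent.H83.Sail.Alg L := by
  obtain ⟨A, hA, hμ, -⟩ := h
  choose μ hμ0 hμ using hμ
  refine ⟨A, μ, hA.det_eq_one, hA.irreducible, hμ0, ?_⟩
  ext i j
  have h1 := hμ i (Pi.single j 1)
  rw [Matrix.mulVec_mulVec] at h1
  rw [Matrix.diagonal_mul]
  rw [Matrix.mulVec_single_one, Matrix.mulVec_single_one] at h1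
  exact h1

theorem result (n : ℕ) (hn : 3 ≤ n) :
    (∀ c d : ℝ, 0 < c → ∃ ε : ℝ, 0 < ε ∧ ∀ R m : ℕ,
      ((m : ℝ) ≤ (ε * R) ^ (n - n / n.minFac) ∨ m * (2 * n ^ 2 + 1) < R) →
      ∃ T : ℝ, ∀ L : Matrix (Fin n) (Fin n) ℝ, L.det ≠ 0 → |L.det| ≤ d →
        (∀ z : Fin n → ℤ, z ≠ 0 → c ≤ |normForm L z|) →
        (∃ s, IsUnimodular s ∧ AtMostClasses L R m (window L T s)) →
        AlgebraicallyPeriodic L) ∧
    ∀ L : Matrix (Fin n) (Fin n) ℝ, L.det ≠ 0 →
      (∃ c : ℝ, 0 < c ∧ ∀ z : Fin n → ℤ, z ≠ 0 → c ≤ |normForm L z|) →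
      (∀ R, ∃ m, AtMostClasses L R m Set.univ) ∧
      (AlgebraicallyPeriodic L → ∃ m, ∀ R, AtMostClasses L R m Set.univ) := by
  have hcardn : Fintype.card (Fin n) = n := Fintype.card_fin n
  have hn' : 3 ≤ Fintype.card (Fin n) := by rw [hcardn]; exact hn
  have hne : Nonempty (Fin n) := ⟨⟨0, by omega⟩⟩
  refine ⟨fun c d hc => ?_, fun L hL hcm => ?_⟩
  · obtain ⟨ε, hε, hpoly⟩ := Pool.Agent.H83.Sail.poly_window (ι := Fin n) hn' c d hc
    rw [hcardn] at hpoly
    refine ⟨ε, hε, fun R m hRm => ?_⟩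
    obtain ⟨T, hT⟩ : ∃ T : ℕ, ∀ L : Matrix (Fin n) (Fin n) ℝ,
        L ∈ Pool.Agent.H83.Sail.Good c d → ∀ s : Fin n → ℝ, (∀ i, 0 < s i) → ∏ i, s i = 1 →
        Pool.Agent.H83.Sail.Few L R m T s → Pool.Agent.H83.Sail.Alg L := by
      rcases hRm with hRm | hRm
      · exact hpoly R m hRm
      · refine Pool.Agent.H83.Sail.window_main (ι := Fin n) hn' c d hc R m ?_
        rw [hcardn]
        have h1 : m * (1 + 2 * (n * n)) = m * (2 * n ^ 2 + 1) := by ring
        rw [h1]
        exact hRm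
    refine ⟨T, fun L hL hd hmin h => periodic_of_alg L hL ?_⟩
    obtain ⟨s, ⟨hs, hs1⟩, F, hF, hFx⟩ := h
    have hadj := joined_eq (by omega) L hL c hc hmin
    refine hT L ⟨det_lower (by omega) L hL c hmin, hd, hmin⟩ s hs hs1
      ⟨F, hF, fun x hx hxT => ?_⟩
    rw [← hadj] at hx
    obtain ⟨y, hy, hyx⟩ := hFx x hxT ((node_iff L x).mpr hx)
    refine ⟨y, hy, ?_⟩
    rw [← hadj]
    exact (samePatch_iff L R y x).mp hyx
  · obtain ⟨c, hc, hmin⟩ := hcm
    have hadj := joined_eq (by omega) L hL c hc hmin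
    refine ⟨fun R => ?_, fun hA => ?_⟩
    · have hfin := Pool.Agent.H83.Sail.finite_classes (ι := Fin n) (by omega) c |L.det| hc L
        ⟨det_lower (by omega) L hL c hmin, le_rfl, hmin⟩ R
      rw [← hadj] at hfin
      classical
      have hft : Fintype (Pool.Agent.H83.Sail.Local.Q (Matrix (Fin n) (Fin n) ℤ)ˣ (Joined L) R) :=
        Fintype.ofFinite _
      refine ⟨_, Finset.univ.image (fun q : Pool.Agent.H83.Sail.Local.Q
        (Matrix (Fin n) (Fin n) ℤ)ˣ (Joined L) R => (Pool.Agent.H83.Sail.Local.rep q).1), le_rfl,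
        fun x _ hx => ?_⟩
      set x' : Pool.Agent.H83.Sail.Local.Node (Joined L) := ⟨x, (node_iff L x).mp hx⟩ with hx'
      refine ⟨(Pool.Agent.H83.Sail.Local.rep (Pool.Agent.H83.Sail.Local.cls
        (Matrix (Fin n) (Fin n) ℤ)ˣ (Joined L) R x')).1,
        Finset.mem_image_of_mem _ (Finset.mem_univ _), ?_⟩
      rw [samePatch_iff]
      exact Pool.Agent.H83.Sail.Local.cls_eq.mp (Pool.Agent.H83.Sail.Local.cls_rep
        (Pool.Agent.H83.Sail.Local.cls (Matrix (Fin n) (Fin n) ℤ)ˣ (Joined L) R x'))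
    · obtain ⟨F, hF⟩ := Pool.Agent.H83.Sail.alg_few L hL c hc hmin (alg_of_periodic L hA)
      refine ⟨F.card, fun R => ⟨F, le_rfl, fun x _ hx => ?_⟩⟩
      have hx1 := (node_iff L x).mp hx
      rw [hadj] at hx1
      obtain ⟨y, hy, hyx⟩ := hF x hx1
      refine ⟨y, hy, (samePatch_iff L R y x).mpr ?_⟩
      rw [hadj]
      exact hyx R

end Pool.Agent.Results.MP_218aa1_nt.PatchComplexity
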